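import Pool.Agent.helper43.Tukey.Defs
import Pool.Agent.helper43.Tukey.Top

/-!
# Basic families of an ultrafilter and Tukey types
-/

set_option autoImplicit false

namespace Pool.Agent.helper25.PF

open Cardinal Set Pool.Agent.helper43.Tukey

/-- The sets `a n` converge to `b` (pointwise). -/
def Conv (a : ℕ → Set ℕ) (b : Set ℕ) : Prop :=
  ∀ k : ℕ, ∃ N : ℕ, ∀ n, N ≤ n → (k ∈ a n ↔ k ∈ b)

/-- A basic family of `U`: a family of sets in `U` such that every sequence in it which
converges to a member of it has a subsequence whose intersection is in `U`. -/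
def Basic (U : Ultrafilter ℕ) (A : Set (Set ℕ)) : Prop :=
  (∀ s ∈ A, s ∈ U) ∧ ∀ (a : ℕ → Set ℕ) (b : Set ℕ), (∀ n, a n ∈ A) → b ∈ A → Conv a b →
    ∃ φ : ℕ → ℕ, StrictMono φ ∧ (⋂ n, a (φ n)) ∈ U

/-- A P-family of `U`: a family of sets in `U` such that every sequence in it has a subsequence
with a pseudo-intersection in `U`. -/
def PFamily (U : Ultrafilter ℕ) (A : Set (Set ℕ)) : Prop :=
  (∀ s ∈ A, s ∈ U) ∧ ∀ a : ℕ → Set ℕ, (∀ n, a n ∈ A) →
    ∃ φ : ℕ → ℕ, StrictMono φ ∧ ∃ X ∈ U, ∀ n, (X \ a (φ n)).Finite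

/-- The least number of basic families whose union is a base of `U`. -/
noncomputable def basicNumber (U : Ultrafilter ℕ) : Cardinal.{0} :=
  sInf {c | ∃ (I : Type) (A : I → Set (Set ℕ)), Cardinal.mk I = c ∧ (∀ i, Basic U (A i)) ∧
    IsBase U (⋃ i, A i)}

/-- An uncountable family of sets has an injective sequence which converges to a member. -/
theorem exists_conv {J : Type} (C : J → Set ℕ) (S : Set J) (hS : ¬ S.Countable) :
    ∃ (j : J) (x : ℕ → J), j ∈ S ∧ (∀ n, x n ∈ S) ∧ Function.Injective x ∧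
      Conv (fun n => C (x n)) (C j) := by
  classical
  have h1 : ∃ j ∈ S, ∀ m : ℕ, {i ∈ S | ∀ k < m, (k ∈ C i ↔ k ∈ C j)}.Infinite := by
    by_contra hcon
    push Not at hcon
    apply hS
    choose! m hm using hcon
    let F : ℕ × Finset ℕ → Set J := fun p =>
      {i ∈ S | (∀ k < p.1, (k ∈ C i ↔ k ∈ p.2)) ∧
        {i' ∈ S | ∀ k < p.1, (k ∈ C i' ↔ k ∈ p.2)}.Finite}
    have hF : ∀ p, (F p).Countable := by
      intro p
      by_cases hp : {i' ∈ S | ∀ k < p.1, (k ∈ C i' ↔ k ∈ p.2)}.Finite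
      · exact (hp.subset fun i hi => ⟨hi.1, hi.2.1⟩).countable
      · have : F p = ∅ := by
          ext i
          constructor
          · intro hi
            exact absurd hi.2.2 hp
          · intro hi
            exact absurd hi (Set.notMem_empty i)
        rw [this]
        exact Set.countable_empty
    refine (Set.countable_iUnion hF).mono ?_
    intro j hj
    have h2 := hm j hj
    have h3 : ∀ i k, k < m j → ((k ∈ C i ↔ k ∈ (Finset.range (m j)).filter (fun k => k ∈ C j)) ↔
        (k ∈ C i ↔ k ∈ C j)) := by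
      intro i k hk
      rw [Finset.mem_filter, Finset.mem_range]
      constructor
      · intro h
        rw [h]
        exact ⟨fun h => h.2, fun h => ⟨hk, h⟩⟩
      · intro h
        rw [h]
        exact ⟨fun h => ⟨hk, h⟩, fun h => h.2⟩
    refine Set.mem_iUnion.2 ⟨(m j, (Finset.range (m j)).filter (fun k => k ∈ C j)), hj, ?_, ?_⟩
    · intro k hk
      exact (h3 j k hk).2 Iff.rfl
    · refine Set.Finite.subset h2 ?_
      intro i hi
      exact ⟨hi.1, fun k hk => (h3 i k hk).1 (hi.2 k hk)⟩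
  obtain ⟨j, hj, hinf⟩ := h1
  -- choose the sequence recursively
  have hstep : ∀ (t : Finset J) (m : ℕ), ∃ i, i ∈ S ∧ (∀ k < m, (k ∈ C i ↔ k ∈ C j)) ∧ i ∉ t := by
    intro t m
    obtain ⟨i, hi, hit⟩ := (hinf m).exists_notMem_finset t
    exact ⟨i, hi.1, hi.2, hit⟩
  choose g hg1 hg2 hg3 using hstep
  let T : ℕ → Finset J := fun n => Nat.rec ∅ (fun m t => insert (g t m) t) n
  have hT : ∀ n, T (n + 1) = insert (g (T n) n) (T n) := fun n => rfl
  have hmono : ∀ a b, a ≤ b → T a ⊆ T b := by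
    intro a b hab
    induction hab with
    | refl => exact Finset.Subset.refl _
    | step _ ih => exact ih.trans (by rw [hT]; exact Finset.subset_insert _ _)
  refine ⟨j, fun n => g (T n) n, hj, fun n => hg1 _ _, ?_, ?_⟩
  · have hlt : ∀ a b, a < b → g (T a) a ≠ g (T b) b := by
      intro a b hab heq
      have h4 : g (T a) a ∈ T b := hmono (a + 1) b hab (by
        rw [hT]
        exact Finset.mem_insert_self _ _)
      rw [heq] at h4
      exact hg3 _ _ h4
    intro a b hab
    rcases lt_trichotomy a b with h | h | h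
    · exact absurd hab (hlt a b h)
    · exact h
    · exact absurd hab.symm (hlt b a h)
  · intro k
    exact ⟨k + 1, fun n hn => hg2 (T n) n k (by omega)⟩

/-- **Theorem (ZFC).** If the union of the basic families `A i`, `i ∈ I`, is a base of `U`, then
for every uncountable family of more than `|I|` sets of `U` some infinite subfamily has a lower
bound in `U`. -/
theorem infinite_bounded (U : Ultrafilter ℕ) {I : Type} (A : I → Set (Set ℕ))
    (hA : ∀ i, Basic U (A i)) (hbase : IsBase U (⋃ i, A i)) {J : Type}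
    (hJ : Cardinal.mk I < Cardinal.mk J) (hJ0 : ℵ₀ < Cardinal.mk J) (B : J → Set ℕ)
    (hB : ∀ j, B j ∈ U) : ∃ X ∈ U, {j | X ⊆ B j}.Infinite := by
  classical
  have h1 : ∀ j, ∃ (i : I) (c : Set ℕ), c ∈ A i ∧ c ⊆ B j := by
    intro j
    obtain ⟨c, hc, hcB⟩ := hbase.2 (B j) (hB j)
    obtain ⟨i, hi⟩ := Set.mem_iUnion.1 hc
    exact ⟨i, c, hi, hcB⟩
  choose f C hC1 hC2 using h1
  -- some fibre of `f` is uncountable
  have h2 : ∃ i, ¬ (f ⁻¹' {i}).Countable := by
    by_contra hcon
    push Not at hcon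
    have h3 : Cardinal.mk J ≤ Cardinal.mk I * ℵ₀ := by
      have h4 : Cardinal.mk J = Cardinal.sum fun i => Cardinal.mk (f ⁻¹' {i}) := by
        rw [← Cardinal.mk_sigma]
        exact Cardinal.mk_congr (Equiv.sigmaFiberEquiv f).symm
      rw [h4]
      refine (Cardinal.sum_le_sum _ (fun _ => ℵ₀) fun i => ?_).trans ?_
      · exact Cardinal.le_aleph0_iff_set_countable.2 (hcon i)
      · rw [Cardinal.sum_const]
        simp
    have h5 : Cardinal.mk I * ℵ₀ < Cardinal.mk J := by
      refine (Cardinal.mul_le_max _ _).trans_lt ?_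
      rw [max_lt_iff, max_lt_iff]
      exact ⟨⟨hJ, hJ0⟩, hJ0⟩
    exact absurd h3 (not_le.2 h5)
  obtain ⟨i, hi⟩ := h2
  obtain ⟨j, x, hj, hx, hinj, hconv⟩ := exists_conv C (f ⁻¹' {i}) hi
  have hmem : ∀ j' ∈ f ⁻¹' {i}, C j' ∈ A i := by
    intro j' hj'
    have h3 : f j' = i := hj'
    rw [← h3]
    exact hC1 j'
  obtain ⟨φ, hφ, hX⟩ := (hA i).2 (fun n => C (x n)) (C j) (fun n => hmem _ (hx n)) (hmem _ hj) hconv
  refine ⟨_, hX, ?_⟩
  have h6 : Function.Injective fun n => x (φ n) := fun a b hab => hφ.injective (hinj hab)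
  refine (Set.infinite_range_of_injective h6).mono ?_
  rintro _ ⟨n, rfl⟩
  show (⋂ n, C (x (φ n))) ⊆ B (x (φ n))
  exact (Set.iInter_subset (fun n => C (x (φ n))) n).trans (hC2 _)

/-- `[J]^{<ω}` is not Tukey below an ultrafilter with a base which is the union of fewer than
`|J|` basic families. -/
theorem not_tukeyLE (U : Ultrafilter ℕ) {I : Type} (A : I → Set (Set ℕ))
    (hA : ∀ i, Basic U (A i)) (hbase : IsBase U (⋃ i, A i)) (J : Type)
    (hJ : Cardinal.mk I < Cardinal.mk J) (hJ0 : ℵ₀ < Cardinal.mk J) :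
    ¬ TukeyLE (Finset J) (Dir U) := by
  classical
  rintro ⟨f, hf⟩
  obtain ⟨X, hX, hinf⟩ := infinite_bounded U A hA hbase hJ hJ0
    (fun j => OrderDual.ofDual (f {j}).1) (fun j => (f {j}).2)
  have hXb : ¬ BddAbove ((fun j : J => ({j} : Finset J)) ''
      {j | X ⊆ OrderDual.ofDual (f {j}).1}) := by
    rintro ⟨F, hF⟩
    apply hinf
    apply F.finite_toSet.subset
    intro i hi
    have := hF ⟨i, hi, rfl⟩
    simpa using this
  apply hf _ hXb
  refine ⟨⟨OrderDual.toDual X, hX⟩, ?_⟩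
  rintro _ ⟨_, ⟨i, hi, rfl⟩, rfl⟩
  exact hi

/-- A single set is a basic family. -/
theorem basic_singleton {U : Ultrafilter ℕ} {s : Set ℕ} (hs : s ∈ U) : Basic U {s} := by
  refine ⟨fun t ht => ?_, fun a b ha _ _ => ⟨id, strictMono_id, ?_⟩⟩
  · rw [Set.mem_singleton_iff] at ht
    rw [ht]
    exact hs
  · have h1 : ∀ n, a n = s := fun n => Set.mem_singleton_iff.1 (ha n)
    have h2 : (⋂ n, a (id n)) = s := by
      simp only [id, h1]
      exact Set.iInter_const s
    rw [h2]
    exact hs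

theorem basicNumber_mem (U : Ultrafilter ℕ) :
    ∃ (I : Type) (A : I → Set (Set ℕ)), Cardinal.mk I = basicNumber U ∧ (∀ i, Basic U (A i)) ∧
      IsBase U (⋃ i, A i) := by
  have hne : {c : Cardinal.{0} | ∃ (I : Type) (A : I → Set (Set ℕ)), Cardinal.mk I = c ∧
      (∀ i, Basic U (A i)) ∧ IsBase U (⋃ i, A i)}.Nonempty := by
    obtain ⟨B, hB, -⟩ := exists_base U
    refine ⟨Cardinal.mk B, B, fun b => {b.1}, rfl, fun b => basic_singleton (hB.1 _ b.2), ?_⟩
    have : (⋃ b : B, ({b.1} : Set (Set ℕ))) = B := by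
      ext s
      simp
    rw [this]
    exact hB
  exact csInf_mem hne

theorem basicNumber_le_character (U : Ultrafilter ℕ) : basicNumber U ≤ character U := by
  obtain ⟨B, hB, hc⟩ := exists_base U
  rw [← hc]
  refine csInf_le' ⟨B, fun b => {b.1}, rfl, fun b => basic_singleton (hB.1 _ b.2), ?_⟩
  have : (⋃ b : B, ({b.1} : Set (Set ℕ))) = B := by
    ext s
    simp
  rw [this]
  exact hB

theorem basicNumber_le {U : Ultrafilter ℕ} {I : Type} (A : I → Set (Set ℕ))
    (hA : ∀ i, Basic U (A i)) (hbase : IsBase U (⋃ i, A i)) : basicNumber U ≤ Cardinal.mk I :=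
  csInf_le' ⟨I, A, rfl, hA, hbase⟩

/-- If `U` is Tukey equivalent to `[ι]^{<ω}` the number of basic families is the character. -/
theorem basicNumber_eq {U : Ultrafilter ℕ} (hU : Nonprincipal U) {ι : Type}
    (h : TukeyEquiv (Dir U) (Finset ι)) (hι : ℵ₀ < Cardinal.mk ι) :
    basicNumber U = character U ∧ character U = Cardinal.mk ι := by
  have h1 := (exists_top_family hU h).1
  have h2 : Cardinal.mk ι ≤ basicNumber U := by
    by_contra hlt
    rw [not_le] at hlt
    obtain ⟨I, A, hI, hA, hbase⟩ := basicNumber_mem U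
    rw [← hI] at hlt
    exact not_tukeyLE U A hA hbase ι hlt hι h.2
  have h3 := basicNumber_le_character U
  exact ⟨le_antisymm h3 (h1.trans h2), le_antisymm h1 (h2.trans h3)⟩

end Pool.Agent.helper25.PF
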