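import Pool.Agent.helper25.PF.Basic

/-!
# P-families are basic; the character is uncountable; P-filters
-/

set_option autoImplicit false

namespace Pool.Agent.helper25.PF

open Cardinal Set Pool.Agent.helper43.Tukey

/-- Finite changes: the complement of a finite set is in a nonprincipal ultrafilter. -/
theorem compl_mem_of_finite {U : Ultrafilter ℕ} (hU : Nonprincipal U) {s : Set ℕ} (hs : s.Finite) :
    sᶜ ∈ U := by
  rw [Ultrafilter.compl_mem_iff_notMem]
  intro h
  exact infinite_of_mem hU h hs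

/-- A nonprincipal ultrafilter has no countable base. -/
theorem aleph0_lt_character {U : Ultrafilter ℕ} (hU : Nonprincipal U) : ℵ₀ < character U := by
  classical
  by_contra hle
  rw [not_lt] at hle
  obtain ⟨B, hB, hc⟩ := exists_base U
  have hcount : B.Countable := by
    rw [← Cardinal.le_aleph0_iff_set_countable, hc]
    exact hle
  have hne : B.Nonempty := by
    obtain ⟨b, hb, -⟩ := hB.2 Set.univ Filter.univ_mem
    exact ⟨b, hb⟩
  obtain ⟨b, hb⟩ := hcount.exists_eq_range hne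
  have hbU : ∀ n, b n ∈ U := fun n => hB.1 _ (by rw [hb]; exact ⟨n, rfl⟩)
  have hbig : ∀ n m : ℕ, ∃ x, x ∈ b n ∧ m < x := fun n m => by
    obtain ⟨x, hx, hmx⟩ := (infinite_of_mem hU (hbU n)).exists_gt m
    exact ⟨x, hx, hmx⟩
  choose g hg1 hg2 using hbig
  -- `x n = (g n (y (n-1)), g n (g n ...))`
  let p : ℕ → ℕ × ℕ := fun n => Nat.rec (g 0 0, g 0 (g 0 0))
    (fun k q => (g (k + 1) q.2, g (k + 1) (g (k + 1) q.2))) n
  have hp : ∀ k, p (k + 1) = (g (k + 1) (p k).2, g (k + 1) (g (k + 1) (p k).2)) := fun k => rfl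
  have hlt : ∀ k, (p k).1 < (p k).2 := by
    intro k
    cases k with
    | zero => exact hg2 _ _
    | succ k =>
      rw [hp]
      exact hg2 _ _
  have hlt2 : ∀ k, (p k).2 < (p (k + 1)).1 := by
    intro k
    rw [hp]
    exact hg2 _ _
  have hm1 : ∀ k, (p k).1 ∈ b k := by
    intro k
    cases k with
    | zero => exact hg1 _ _
    | succ k =>
      rw [hp]
      exact hg1 _ _
  have hm2 : ∀ k, (p k).2 ∈ b k := by
    intro k
    cases k with
    | zero => exact hg1 _ _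
    | succ k =>
      rw [hp]
      exact hg1 _ _
  have hmono : ∀ a c, a < c → (p a).2 < (p c).1 := by
    intro a c hac
    induction hac with
    | refl => exact hlt2 a
    | step _ ih => exact ih.trans ((hlt _).trans (hlt2 _))
  have hdisj : ∀ a c, (p a).1 ≠ (p c).2 := by
    intro a c
    rcases lt_trichotomy a c with h | h | h
    · have h1 := hmono a c h
      have h2 := hlt a
      have h3 := hlt c
      omega
    · rw [h]
      exact (hlt c).ne
    · exact (hmono c a h).ne'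
  rcases Ultrafilter.mem_or_compl_mem U (Set.range fun k => (p k).1) with h | h
  · obtain ⟨c, hcB, hcs⟩ := hB.2 _ h
    rw [hb] at hcB
    obtain ⟨n, rfl⟩ := hcB
    obtain ⟨k, hk⟩ := hcs (hm2 n)
    exact hdisj k n hk
  · obtain ⟨c, hcB, hcs⟩ := hB.2 _ h
    rw [hb] at hcB
    obtain ⟨n, rfl⟩ := hcB
    exact hcs (hm1 n) ⟨n, rfl⟩

/-- A P-family is a basic family. -/
theorem basic_of_pfamily {U : Ultrafilter ℕ} (hU : Nonprincipal U) {A : Set (Set ℕ)}
    (hA : PFamily U A) : Basic U A := by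
  classical
  refine ⟨hA.1, fun a b ha hb hconv => ?_⟩
  obtain ⟨φ, hφ, X, hX, hfin⟩ := hA.2 a ha
  set Y : Set ℕ := X ∩ b with hYdef
  have hY : Y ∈ U := Filter.inter_mem hX (hA.1 b hb)
  have hYfin : ∀ n, (Y \ a (φ n)).Finite := fun n => (hfin n).subset fun x hx => ⟨hx.1.1, hx.2⟩
  -- bounds
  have hub : ∀ n, ∃ M, ∀ x ∈ Y \ a (φ n), x < M := by
    intro n
    obtain ⟨M, hM⟩ := (hYfin n).bddAbove
    exact ⟨M + 1, fun x hx => Nat.lt_succ_of_le (hM hx)⟩
  choose M hM using hub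
  have hlb : ∀ m : ℕ, ∃ N, ∀ n, N ≤ n → ∀ x ∈ Y \ a (φ n), m ≤ x := by
    intro m
    induction m with
    | zero => exact ⟨0, fun _ _ x _ => Nat.zero_le x⟩
    | succ m ih =>
      obtain ⟨N, hN⟩ := ih
      obtain ⟨N', hN'⟩ := hconv m
      refine ⟨max N N', fun n hn x hx => ?_⟩
      have h1 := hN n (le_of_max_le_left hn) x hx
      rcases h1.lt_or_eq with h | h
      · exact h
      · exfalso
        have h2 := hN' (φ n) ((le_of_max_le_right hn).trans hφ.le_apply)
        rw [← h] at hx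
        exact hx.2 (h2.2 hx.1.2)
  choose N hN using hlb
  -- a subsequence with successive bad sets
  let ψ : ℕ → ℕ := fun k => Nat.rec 0 (fun _ r => max (r + 1) (N (M r))) k
  have hψ : ∀ k, ψ (k + 1) = max (ψ k + 1) (N (M (ψ k))) := fun k => rfl
  have hψmono : StrictMono ψ := strictMono_nat_of_lt_succ fun k => by
    rw [hψ]
    exact Nat.lt_of_succ_le (le_max_left _ _)
  have hMψ : ∀ i j, i < j → ∀ x ∈ Y \ a (φ (ψ j)), M (ψ i) ≤ x := by
    intro i j hij x hx
    refine hN (M (ψ i)) (ψ j) ?_ x hx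
    have h1 : ψ (i + 1) ≤ ψ j := hψmono.monotone hij
    rw [hψ] at h1
    exact (le_max_right _ _).trans h1
  have hdisj : ∀ i j, i < j → ∀ x, x ∈ Y \ a (φ (ψ i)) → x ∈ Y \ a (φ (ψ j)) → False := by
    intro i j hij x hxi hxj
    have h1 := hM (ψ i) x hxi
    have h2 := hMψ i j hij x hxj
    omega
  set Z0 : Set ℕ := ⋃ k, Y \ a (φ (ψ (2 * k))) with hZ0
  set Z1 : Set ℕ := ⋃ k, Y \ a (φ (ψ (2 * k + 1))) with hZ1
  have hZ : Z0 ∩ Z1 = ∅ := by
    ext x
    constructor
    · rintro ⟨h0, h1⟩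
      obtain ⟨i, hi⟩ := Set.mem_iUnion.1 h0
      obtain ⟨j, hj⟩ := Set.mem_iUnion.1 h1
      rcases lt_or_ge (2 * i) (2 * j + 1) with h | h
      · exact (hdisj _ _ h x hi hj).elim
      · exact (hdisj (2 * j + 1) (2 * i) (by omega) x hj hi).elim
    · intro h
      exact absurd h (Set.notMem_empty x)
  by_cases hcase : Z0ᶜ ∈ U
  · refine ⟨fun k => φ (ψ (2 * k)), fun i j hij => hφ (hψmono (by omega)), ?_⟩
    refine Filter.mem_of_superset (Filter.inter_mem hY hcase) ?_
    rintro x ⟨hxY, hx0⟩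
    rw [Set.mem_iInter]
    intro k
    by_contra hxk
    exact hx0 (Set.mem_iUnion.2 ⟨k, hxY, hxk⟩)
  · have hZ0U : Z0 ∈ U := by
      rw [Ultrafilter.compl_mem_iff_notMem, not_not] at hcase
      exact hcase
    have hmono2 : StrictMono fun k => φ (ψ (2 * k + 1)) := by
      intro i j hij
      have h1 : 2 * i + 1 < 2 * j + 1 := by omega
      exact hφ (hψmono h1)
    refine ⟨fun k => φ (ψ (2 * k + 1)), hmono2, ?_⟩
    refine Filter.mem_of_superset (Filter.inter_mem hY hZ0U) ?_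
    rintro x ⟨hxY, hx0⟩
    rw [Set.mem_iInter]
    intro k
    by_contra hxk
    have h1 : x ∈ Z0 ∩ Z1 := ⟨hx0, Set.mem_iUnion.2 ⟨k, hxY, hxk⟩⟩
    rw [hZ] at h1
    exact h1

/-- `F` is a P-filter: every sequence in `F` has a pseudo-intersection in `F`. -/
def PFilter (F : Filter ℕ) : Prop :=
  ∀ a : ℕ → Set ℕ, (∀ n, a n ∈ F) → ∃ X ∈ F, ∀ n, (X \ a n).Finite

/-- `U` is generated by the filter `F` and the family `G`: every set of `U` contains some
`f ∩ g ∈ U` with `f ∈ F` and `g ∈ G`. -/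
def GeneratedOver (U : Ultrafilter ℕ) (F : Filter ℕ) (G : Set (Set ℕ)) : Prop :=
  (∀ f ∈ F, f ∈ U) ∧ (∀ g ∈ G, g ∈ U) ∧ ∀ s ∈ U, ∃ f ∈ F, ∃ g ∈ G, f ∩ g ⊆ s

/-- An ultrafilter generated over a P-filter by `G` has at most `|G|` basic families. -/
theorem basicNumber_le_of_pfilter {U : Ultrafilter ℕ} (hU : Nonprincipal U) {F : Filter ℕ}
    (hF : PFilter F) {G : Set (Set ℕ)} (h : GeneratedOver U F G) :
    basicNumber U ≤ Cardinal.mk G := by
  obtain ⟨h1, h2, h3⟩ := h
  have hA : ∀ g : G, PFamily U {s | ∃ f ∈ F, s = f ∩ g.1} := by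
    intro g
    refine ⟨?_, ?_⟩
    · rintro s ⟨f, hf, rfl⟩
      exact Filter.inter_mem (h1 f hf) (h2 _ g.2)
    · intro a ha
      choose f hf hfa using ha
      obtain ⟨X, hX, hfin⟩ := hF f hf
      refine ⟨id, strictMono_id, X ∩ g.1, Filter.inter_mem (h1 X hX) (h2 _ g.2), fun n => ?_⟩
      refine (hfin n).subset ?_
      rintro x ⟨⟨hx1, hx2⟩, hx3⟩
      refine ⟨hx1, fun hxf => hx3 ?_⟩
      show x ∈ a n
      rw [hfa n]
      exact ⟨hxf, hx2⟩
  refine basicNumber_le (fun g : G => {s | ∃ f ∈ F, s = f ∩ g.1})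
    (fun g => basic_of_pfamily hU (hA g)) ?_
  constructor
  · intro s hs
    obtain ⟨g, hg⟩ := Set.mem_iUnion.1 hs
    exact (hA g).1 s hg
  · intro s hs
    obtain ⟨f, hf, g, hg, hfg⟩ := h3 s hs
    exact ⟨f ∩ g, Set.mem_iUnion.2 ⟨⟨g, hg⟩, f, hf, rfl⟩, hfg⟩

/-- If `U` is Tukey equivalent to `[ι]^{<ω}`, the number of basic families and the character
both are the cardinality of `ι`. -/
theorem all_eq {U : Ultrafilter ℕ} (hU : Nonprincipal U) {ι : Type}
    (h : TukeyEquiv (Dir U) (Finset ι)) :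
    basicNumber U = Cardinal.mk ι ∧ character U = Cardinal.mk ι := by
  have h1 := (exists_top_family hU h).1
  have h2 := basicNumber_eq hU h ((aleph0_lt_character hU).trans_le h1)
  exact ⟨h2.1.trans h2.2, h2.2⟩

end Pool.Agent.helper25.PF
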